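import Pool.Agent.W780.BB.Stm
import Mathlib.Dynamics.Ergodic.AddCircleAdd

/-!
# BB-ROT: ergodicity of irrational rotations
-/

set_option autoImplicit false

namespace Pool.Agent.W363.BB

open MeasureTheory Set

open scoped Real

theorem per_int {Θ : Set ℝ} (h : ∀ θ, θ + 2 * π ∈ Θ ↔ θ ∈ Θ) (k : ℤ) :
    ∀ θ, θ + k * (2 * π) ∈ Θ ↔ θ ∈ Θ := by
  induction k using Int.induction_on with
  | zero => intro θ; simp
  | succ n ih =>
    intro θ
    rw [← ih θ, ← h (θ + (n : ℤ) * (2 * π))]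
    have : θ + ((n : ℤ) + 1 : ℤ) * (2 * π) = θ + (n : ℤ) * (2 * π) + 2 * π := by
      push_cast
      ring
    rw [this]
  | pred n ih =>
    intro θ
    rw [← ih θ, ← h (θ + ((-(n : ℤ) - 1 : ℤ)) * (2 * π))]
    have : θ + ((-(n : ℤ) - 1 : ℤ)) * (2 * π) + 2 * π = θ + ((-(n : ℤ) : ℤ)) * (2 * π) := by
      push_cast
      ring
    rw [this]

/-- null on each period implies null -/
theorem null_of_periods {S : Set ℝ} (h : ∀ t : ℝ, volume (S ∩ Ioc t (t + 2 * π)) = 0) :
    volume S = 0 := by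
  have h1 : S ⊆ ⋃ k : ℤ, (S ∩ Ioc ((k : ℝ) * (2 * π)) ((k : ℝ) * (2 * π) + 2 * π)) := by
    intro x hx
    obtain ⟨k, hk, -⟩ := existsUnique_add_zsmul_mem_Ioc Real.two_pi_pos x 0
    refine mem_iUnion.2 ⟨-k, hx, ?_⟩
    rw [mem_Ioc, zsmul_eq_mul] at hk
    rw [mem_Ioc]
    push_cast
    constructor <;> linarith [hk.1, hk.2]
  refine measure_mono_null h1 ?_
  rw [measure_iUnion_null_iff]
  exact fun k => h _

theorem rot : Pool.Agent.W780.BB.S_Rot := by
  intro Θ a b hΘ hper ha hb hirr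
  have : Fact ((0 : ℝ) < 2 * π) := ⟨Real.two_pi_pos⟩
  -- translation
  have htr : ∀ᵐ θ : ℝ, (2 * (a - b) + θ ∈ Θ ↔ θ ∈ Θ) := by
    have h1 : ∀ᵐ θ : ℝ, (2 * a - (2 * b - θ) ∈ Θ ↔ (2 * b - θ) ∈ Θ) :=
      (Measure.measurePreserving_sub_left volume (2 * b)).quasiMeasurePreserving.ae ha
    filter_upwards [h1, hb] with θ h2 h3
    have : 2 * (a - b) + θ = 2 * a - (2 * b - θ) := by ring
    rw [this, h2, h3]
  set s : Set (AddCircle (2 * π)) :=
    {x | ((AddCircle.measurableEquivIoc (2 * π) 0 x : Ioc (0 : ℝ) (0 + 2 * π)) : ℝ) ∈ Θ} with hs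
  have hsm : MeasurableSet s :=
    (measurable_subtype_coe.comp (AddCircle.measurableEquivIoc (2 * π) 0).measurable) hΘ
  have hmem : ∀ θ : ℝ, ((θ : ℝ) : AddCircle (2 * π)) ∈ s ↔ θ ∈ Θ := by
    intro θ
    have h1 : (((AddCircle.measurableEquivIoc (2 * π) 0 (θ : AddCircle (2 * π)) :
        Ioc (0 : ℝ) (0 + 2 * π)) : ℝ) : AddCircle (2 * π)) = (θ : AddCircle (2 * π)) :=
      (AddCircle.measurableEquivIoc (2 * π) 0).symm_apply_apply (θ : AddCircle (2 * π))
    have h2 := (QuotientAddGroup.eq (s := AddSubgroup.zmultiples (2 * π))).1 h1.symm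
    obtain ⟨k, hk⟩ := AddSubgroup.mem_zmultiples_iff.1 h2
    rw [zsmul_eq_mul] at hk
    have h3 : ((AddCircle.measurableEquivIoc (2 * π) 0 (θ : AddCircle (2 * π)) :
        Ioc (0 : ℝ) (0 + 2 * π)) : ℝ) = θ + k * (2 * π) := by
      rw [hk]; ring
    rw [hs, mem_setOf_eq, h3]
    exact per_int hper k θ
  have herg : Ergodic ((((2 * (a - b) : ℝ) : AddCircle (2 * π))) + ·)
      (volume : Measure (AddCircle (2 * π))) := by
    rw [AddCircle.ergodic_add_left, addOrderOf_eq_zero_iff,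
      AddCircle.not_isOfFinAddOrder_iff_forall_rat_ne_div]
    intro q hq
    apply hirr
    refine ⟨q, ?_⟩
    rw [hq]
    field_simp
  have hinv : (((((2 * (a - b) : ℝ) : AddCircle (2 * π))) + ·) ⁻¹' s : Set (AddCircle (2 * π)))
      =ᵐ[volume] s := by
    have h0 : ∀ᵐ x : AddCircle (2 * π), (((2 * (a - b) : ℝ) : AddCircle (2 * π)) + x ∈ s ↔ x ∈ s) := by
      rw [← (AddCircle.measurePreserving_mk (2 * π) 0).map_eq, ae_map_iff
        (AddCircle.measurePreserving_mk (2 * π) 0).measurable.aemeasurable]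
      · refine ae_restrict_of_ae ?_
        filter_upwards [htr] with θ hθ
        have := hmem (2 * (a - b) + θ)
        rw [QuotientAddGroup.mk_add] at this
        rw [this, hθ, hmem θ]
      · have h5 : MeasurableSet {x : AddCircle (2 * π) |
            ((2 * (a - b) : ℝ) : AddCircle (2 * π)) + x ∈ s} := (measurable_const_add _) hsm
        have h6 : {x : AddCircle (2 * π) |
            (((2 * (a - b) : ℝ) : AddCircle (2 * π)) + x ∈ s ↔ x ∈ s)} =
            ({x : AddCircle (2 * π) | ((2 * (a - b) : ℝ) : AddCircle (2 * π)) + x ∈ s} ∩ s) ∪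
            ({x : AddCircle (2 * π) | ((2 * (a - b) : ℝ) : AddCircle (2 * π)) + x ∈ s}ᶜ ∩ sᶜ) := by
          ext x
          simp only [mem_setOf_eq, mem_union, mem_inter_iff, mem_compl_iff]
          tauto
        rw [h6]
        exact (h5.inter hsm).union (h5.compl.inter hsm.compl)
    filter_upwards [h0] with x hx
    exact propext hx
  rcases herg.quasiErgodic.ae_empty_or_univ₀ hsm.nullMeasurableSet hinv with h | h
  · left
    refine null_of_periods fun t => ?_
    have h1 : volume s = 0 := by rwa [ae_eq_empty] at h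
    rw [AddCircle.add_projection_respects_measure (2 * π) t hsm] at h1
    have h2 : (QuotientAddGroup.mk ⁻¹' s : Set ℝ) = Θ := by
      ext θ
      exact hmem θ
    rwa [h2] at h1
  · right
    refine null_of_periods fun t => ?_
    have h1 : volume sᶜ = 0 := by
      rwa [ae_eq_univ] at h
    rw [AddCircle.add_projection_respects_measure (2 * π) t hsm.compl] at h1
    have h2 : (QuotientAddGroup.mk ⁻¹' sᶜ : Set ℝ) = Θᶜ := by
      ext θ
      exact not_congr (hmem θ)
    rwa [h2] at h1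

end Pool.Agent.W363.BB
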